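import Pool.Graph.R_pool_sql_team_seeded_5cf16337.K3h52.LF.Num

set_option autoImplicit false
set_option linter.unusedSectionVars false

/-!
The points of the net with a large region are covered by random translates, the other points by
the greedy choice of translates.
-/

namespace Pool.Agent.H234.Cov

open scoped RealInnerProductSpace Pointwise
open Module MeasureTheory
open Pool.Agent.H845R2 (SB pol pol_anti pol_closed pol_convex)
open Pool.Agent.K3h52 Pool.Agent.K3h52.HR Pool.Agent.K3h52.LF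

variable {V : Type*} [NormedAddCommGroup V] [InnerProductSpace ℝ V] [FiniteDimensional ℝ V]
  [MeasurableSpace V] [BorelSpace V] (μ : Measure V) [μ.IsAddHaarMeasure]

/-- **The points of the net are covered by few translates.** -/
theorem few {K L : Set V} (hK : Bd K) (hL : Convex ℝ L) (hLc : IsCompact L)
    (hLi : (interior L).Nonempty) (hLK : L ⊆ K) (hd : 2 ≤ finrank ℝ V) {κ : ℝ} (hκ0 : 0 < κ)
    (hκ1 : κ < 1)
    (F : Finset V) (hF : ∀ p ∈ F, p ∈ interior K) (G : ℝ)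
    (hG : ∑ p ∈ F, μ.real K / μ.real (Mac K p) ≤ G)
    -- the threshold
    (r₀ W : ℝ) (hr₀ : 0 < r₀) (hW : 0 < W)
    (hthr : W * μ.real (K - L) ≤
      2 ^ finrank ℝ V * (1 + r₀) ^ ((finrank ℝ V : ℝ) / 2) * μ.real L)
    -- random translates
    (m : ℕ) (ν : ℝ) (hν : 0 < ν)
    (hm : ν * (((1 + κ) / (1 - κ)) ^ finrank ℝ V * 2 ^ finrank ℝ V) ≤ m * W)
    (hsum : G * (Real.exp (-ν) * (2 / (Real.exp 1 * ν)) ^ finrank ℝ V) < 1)
    -- greedy translates
    (k n : ℕ) (hk : G * r₀ ^ finrank ℝ V < k + 1)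
    (hn : (TP.left (((1 - κ) / (1 + (1 - κ))) ^ finrank ℝ V))^[n] k = 0) :
    ∃ Y : Finset V, Y.card ≤ m + n ∧ ∀ p ∈ F, ∃ t ∈ Y, p - t ∈ (1 - κ) • K := by
  classical
  obtain ⟨l₀, hl₀⟩ : L.Nonempty := hLi.mono interior_subset
  set d := finrank ℝ V with hdd
  have hd0 : d ≠ 0 := by omega
  have hd2 : (2 : ℝ) ≤ d := by exact_mod_cast hd
  have hKc := hK.comp
  have hKr : 0 < μ.real K := TP.real_pos' μ hK.comp ⟨0, hK.i0⟩
  have hLr : 0 < μ.real L := TP.real_pos' μ hLc hLi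
  have hLKr : μ.real L ≤ μ.real K := measureReal_mono hLK hKc.measure_lt_top.ne
  have hKL : 0 < μ.real (K - L) := by
    refine TP.real_pos' μ (sub_comp hKc hLc) ?_
    refine ⟨0 - l₀, ?_⟩
    have h1 : interior K - L ⊆ interior (K - L) :=
      interior_maximal (Set.sub_subset_sub_right interior_subset)
        (isOpen_interior.sub_right)
    exact h1 (Set.sub_mem_sub hK.i0 hl₀)
  have hκ2 : 0 < 1 - κ := by linarith
  have hκ3 : 0 < 1 + κ := by linarith
  have hQv : μ.real (Qs K L κ l₀) = ((1 + κ) / 2) ^ d * μ.real (K - L) := qs_vol μ hκ0 l₀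
  have hQ0 : 0 < μ.real (Qs K L κ l₀) := by rw [hQv]; positivity
  have hs0 : ∀ p ∈ F, 0 < μ.real (Mac K p) := fun p hp =>
    TP.real_pos' μ (mac_comp hK.comp p) (mac_sb hK.conv hK.comp (hF p hp)).int
  set r : V → ℝ := fun p => (μ.real (Mac K p) / μ.real L) ^ ((d : ℝ)⁻¹) with hr
  have hr0 : ∀ p ∈ F, 0 < r p := fun p hp => Real.rpow_pos_of_pos (div_pos (hs0 p hp) hLr) _
  have hrd : ∀ p ∈ F, r p ^ d = μ.real (Mac K p) / μ.real L := fun p hp =>
    Real.rpow_inv_natCast_pow (div_pos (hs0 p hp) hLr).le hd0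
  -- the two parts of the net
  set F₁ := F.filter fun p => r₀ ≤ r p with hF₁
  set F₂ := F.filter fun p => ¬ r₀ ≤ r p with hF₂
  have hF₁F : ∀ p ∈ F₁, p ∈ F := fun p hp => (Finset.mem_filter.1 hp).1
  have hF₂F : ∀ p ∈ F₂, p ∈ F := fun p hp => (Finset.mem_filter.1 hp).1
  have hG0 : ∀ p ∈ F, 0 ≤ μ.real K / μ.real (Mac K p) := fun p hp =>
    div_nonneg hKr.le (hs0 p hp).le
  have hG₁ : ∑ p ∈ F₁, μ.real K / μ.real (Mac K p) ≤ G :=
    (Finset.sum_le_sum_of_subset_of_nonneg (Finset.filter_subset _ _)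
      (fun p hp _ => hG0 p hp)).trans hG
  have hG₂ : ∑ p ∈ F₂, μ.real K / μ.real (Mac K p) ≤ G :=
    (Finset.sum_le_sum_of_subset_of_nonneg (Finset.filter_subset _ _)
      (fun p hp _ => hG0 p hp)).trans hG
  -- first part
  set c₀ := ((1 - κ) / (1 + κ)) ^ d * (μ.real L / μ.real (K - L)) with hc₀
  have hc₀0 : 0 < c₀ := by positivity
  set c : V → ℝ := fun p => c₀ * (1 + r p) ^ d with hc
  have hvol : ∀ p ∈ F₁, c p * μ.real (Qs K L κ l₀) ≤ μ.real (Ts K L κ l₀ p) := by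
    intro p hp₁
    have hp := hF₁F p hp₁
    refine le_trans (le_of_eq ?_) (ts_vol μ hK.conv hKc hL hLc hLK hκ0 hκ1 hl₀
      (interior_subset (hF p hp)) (r p) (hr0 p hp) ?_)
    · rw [hQv, hc, hc₀, ← hdd]
      simp only
      rw [mul_pow, div_pow, div_pow, div_pow]
      field_simp
    · rw [← hdd, hrd p hp]
      field_simp
  obtain ⟨Y₁, hY₁, hYs⟩ := select μ (Qs K L κ l₀) (qs_closed hKc hLc κ l₀).measurableSet hQ0
    (Ts K L κ l₀) c m F₁ (fun p _ => (ts_closed hKc hLc κ l₀ p).measurableSet)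
    (fun p _ => ts_sub κ l₀ p) hvol (fun _ => 1) (fun _ _ => zero_le_one)
  have hc1 : ∀ p ∈ F₁, c p ≤ 1 := by
    intro p hp
    have h1 : μ.real (Ts K L κ l₀ p) ≤ μ.real (Qs K L κ l₀) :=
      measureReal_mono (ts_sub κ l₀ p) (qs_fin μ hKc hLc κ l₀)
    have h2 := (hvol p hp).trans h1
    by_contra hcon
    push Not at hcon
    nlinarith
  set s := (1 + r₀) ^ ((d : ℝ) / 2) with hs
  have hs0' : 0 < s := Real.rpow_pos_of_pos (by linarith) _
  have hmν : ν ≤ m * c₀ * s := by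
    have e : (m : ℝ) * c₀ * s = (m * μ.real L * s) /
        (((1 + κ) / (1 - κ)) ^ d * μ.real (K - L)) := by
      rw [hc₀, div_pow, div_pow]
      field_simp
    rw [e, le_div_iff₀ (by positivity)]
    have h1 : ν * (((1 + κ) / (1 - κ)) ^ d * 2 ^ d) * (s * μ.real L) ≤
        m * W * (s * μ.real L) := mul_le_mul_of_nonneg_right hm (by positivity)
    have h2 : ν * ((1 + κ) / (1 - κ)) ^ d * (W * μ.real (K - L)) ≤
        ν * ((1 + κ) / (1 - κ)) ^ d * (2 ^ d * s * μ.real L) :=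
      mul_le_mul_of_nonneg_left hthr (by positivity)
    have h3 : W * (ν * (((1 + κ) / (1 - κ)) ^ d * μ.real (K - L))) ≤
        W * (m * μ.real L * s) := by
      calc W * (ν * (((1 + κ) / (1 - κ)) ^ d * μ.real (K - L)))
          = ν * ((1 + κ) / (1 - κ)) ^ d * (W * μ.real (K - L)) := by ring
        _ ≤ ν * ((1 + κ) / (1 - κ)) ^ d * (2 ^ d * s * μ.real L) := h2
        _ = ν * (((1 + κ) / (1 - κ)) ^ d * 2 ^ d) * (s * μ.real L) := by ring
        _ ≤ m * W * (s * μ.real L) := h1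
        _ = W * (m * μ.real L * s) := by ring
    exact le_of_mul_le_mul_left h3 hW
  have hterm : ∀ p ∈ F₁, (1 : ℝ) * (1 - c p) ^ m ≤
      (Real.exp (-ν) * (2 / (Real.exp 1 * ν)) ^ d) * (μ.real K / μ.real (Mac K p)) := by
    intro p hp₁
    have hp := hF₁F p hp₁
    have hrp := hr0 p hp
    have hrr : r₀ ≤ r p := (Finset.mem_filter.1 hp₁).2
    have h1 : (1 - c p) ^ m ≤ Real.exp (-(m * c p)) := by
      have h2 : 1 - c p ≤ Real.exp (-c p) := by
        have := Real.add_one_le_exp (-c p)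
        linarith
      calc (1 - c p) ^ m ≤ Real.exp (-c p) ^ m :=
            pow_le_pow_left₀ (by linarith [hc1 p hp₁]) h2 _
        _ = Real.exp (-(m * c p)) := by
            rw [← Real.exp_nat_mul]
            congr 1
            ring
    have h2 : ν * (1 + d * (r p / 2)) ≤ m * c p := by
      have h3 : 1 + (d : ℝ) / 2 * r p ≤ (1 + r p) ^ ((d : ℝ) / 2) :=
        one_add_mul_self_le_rpow_one_add (by linarith) (by linarith)
      have h4 : s ≤ (1 + r p) ^ ((d : ℝ) / 2) :=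
        Real.rpow_le_rpow (by linarith) (by linarith) (by positivity)
      have h5 : (1 + r p) ^ d = (1 + r p) ^ ((d : ℝ) / 2) * (1 + r p) ^ ((d : ℝ) / 2) := by
        rw [← Real.rpow_add (by linarith), add_halves, Real.rpow_natCast]
      have h6 : 0 ≤ m * c₀ := by positivity
      calc ν * (1 + d * (r p / 2)) = ν * (1 + (d : ℝ) / 2 * r p) := by ring
        _ ≤ (m * c₀ * s) * (1 + r p) ^ ((d : ℝ) / 2) :=
            mul_le_mul hmν h3 (by positivity) (by positivity)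
        _ ≤ (m * c₀ * (1 + r p) ^ ((d : ℝ) / 2)) * (1 + r p) ^ ((d : ℝ) / 2) := by
            refine mul_le_mul_of_nonneg_right (mul_le_mul_of_nonneg_left h4 h6) ?_
            exact Real.rpow_nonneg (by linarith) _
        _ = m * c p := by rw [hc]; simp only; rw [h5]; ring
    have h4 : Real.exp (-(ν * (1 + d * (r p / 2)))) =
        Real.exp (-ν) * Real.exp (-(ν * (r p / 2))) ^ d := by
      rw [← Real.exp_nat_mul, ← Real.exp_add]
      congr 1
      ring
    have h5 : Real.exp (-(ν * (r p / 2))) ^ d ≤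
        (2 / (Real.exp 1 * ν)) ^ d * (μ.real K / μ.real (Mac K p)) := by
      have h6 := exp_neg_le (show 0 < ν * (r p / 2) by positivity)
      calc Real.exp (-(ν * (r p / 2))) ^ d ≤ (1 / (Real.exp 1 * (ν * (r p / 2)))) ^ d :=
            pow_le_pow_left₀ (Real.exp_pos _).le h6 _
        _ = (2 / (Real.exp 1 * ν)) ^ d * (1 / r p ^ d) := by
            rw [← one_div_pow, ← mul_pow]
            congr 1
            field_simp
        _ = (2 / (Real.exp 1 * ν)) ^ d * (μ.real L / μ.real (Mac K p)) := by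
            rw [hrd p hp, one_div_div]
        _ ≤ _ := by
            refine mul_le_mul_of_nonneg_left ?_ (by positivity)
            exact div_le_div_of_nonneg_right hLKr (hs0 p hp).le
    calc (1 : ℝ) * (1 - c p) ^ m ≤ Real.exp (-(m * c p)) := by rw [one_mul]; exact h1
      _ ≤ Real.exp (-(ν * (1 + d * (r p / 2)))) := Real.exp_le_exp.2 (neg_le_neg h2)
      _ = Real.exp (-ν) * Real.exp (-(ν * (r p / 2))) ^ d := h4
      _ ≤ Real.exp (-ν) * ((2 / (Real.exp 1 * ν)) ^ d * (μ.real K / μ.real (Mac K p))) :=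
          mul_le_mul_of_nonneg_left h5 (Real.exp_pos _).le
      _ = _ := by ring
  have hlt : ∑ p ∈ F₁ with (∀ t ∈ Y₁, t ∉ Ts K L κ l₀ p), (1 : ℝ) < 1 := by
    refine lt_of_le_of_lt hYs (lt_of_le_of_lt (Finset.sum_le_sum hterm) ?_)
    rw [← Finset.mul_sum]
    refine lt_of_le_of_lt ?_ hsum
    rw [mul_comm]
    exact mul_le_mul_of_nonneg_right hG₁ (by positivity)
  rw [Finset.sum_const, nsmul_eq_mul, mul_one] at hlt
  have hemp : (F₁.filter fun p => ∀ t ∈ Y₁, t ∉ Ts K L κ l₀ p) = ∅ := by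
    rw [← Finset.card_eq_zero]
    have : (F₁.filter fun p => ∀ t ∈ Y₁, t ∉ Ts K L κ l₀ p).card < 1 := by exact_mod_cast hlt
    omega
  -- second part
  have hcard : (F₂.card : ℝ) ≤ G * r₀ ^ d := by
    have h1 : (F₂.card : ℝ) * (1 / r₀ ^ d) ≤ G := by
      refine le_trans ?_ hG₂
      rw [← nsmul_eq_mul, ← Finset.sum_const]
      refine Finset.sum_le_sum fun p hp₂ => ?_
      have hp := hF₂F p hp₂
      have hrr : r p < r₀ := not_le.1 (Finset.mem_filter.1 hp₂).2
      have h2 : r p ^ d ≤ r₀ ^ d := pow_le_pow_left₀ (hr0 p hp).le hrr.le d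
      have h3 : 0 < r p ^ d := pow_pos (hr0 p hp) d
      calc 1 / r₀ ^ d ≤ 1 / r p ^ d := one_div_le_one_div_of_le h3 h2
        _ = μ.real L / μ.real (Mac K p) := by rw [hrd p hp, one_div_div]
        _ ≤ _ := div_le_div_of_nonneg_right hLKr (hs0 p hp).le
    have h4 : 0 < r₀ ^ d := by positivity
    rw [mul_one_div, div_le_iff₀ h4] at h1
    exact h1
  have hF₂k : F₂.card ≤ k := by
    have h1 : (F₂.card : ℝ) < k + 1 := lt_of_le_of_lt hcard hk
    have h2 : F₂.card < k + 1 := by exact_mod_cast h1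
    omega
  obtain ⟨Y₂, hY₂, hcov₂⟩ := HR.few hK F₂ (fun p hp => interior_subset (hF p (hF₂F p hp)))
    hκ2 k n hF₂k hn
  refine ⟨Y₁ ∪ Y₂, (Finset.card_union_le _ _).trans (add_le_add hY₁ hY₂), ?_⟩
  intro p hp
  by_cases hrr : r₀ ≤ r p
  · have hp₁ : p ∈ F₁ := Finset.mem_filter.2 ⟨hp, hrr⟩
    by_contra hcon
    push Not at hcon
    have : p ∈ (F₁.filter fun p => ∀ t ∈ Y₁, t ∉ Ts K L κ l₀ p) :=
      Finset.mem_filter.2 ⟨hp₁, fun t ht h => hcon t (Finset.mem_union_left _ ht) h.2⟩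
    rw [hemp] at this
    simp at this
  · have hp₂ : p ∈ F₂ := Finset.mem_filter.2 ⟨hp, hrr⟩
    obtain ⟨t, ht, h⟩ := hcov₂ p hp₂
    exact ⟨t, Finset.mem_union_right _ ht, h⟩

/-- **Covering.** -/
theorem cov {A B L : Set V} (hA : Convex ℝ A) (hAc : IsCompact A)
    (hL : Convex ℝ L) (hLc : IsCompact L) (hLi : (interior L).Nonempty) (hLA : L ⊆ A)
    (hB : Convex ℝ B) (hBc : IsCompact B) (hBn : B.Nonempty)
    (hd : 2 ≤ finrank ℝ V) (VL VU : ℝ) (hVL : 0 < VL)
    (hVL' : ∀ S : Set V, SB S → VL ≤ μ.real S * μ.real (pol S))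
    (hU : ∀ S : Set V, SB S → μ.real S * μ.real (pol S) ≤ VU) {ζ κ : ℝ} (hζ : 0 < ζ)
    (hκ : 2 * ζ < κ) (hκ1 : κ < 1)
    (r₀ W : ℝ) (hr₀ : 0 < r₀) (hW : 0 < W)
    (hthr : W * μ.real (A - L) ≤
      2 ^ finrank ℝ V * (1 + r₀) ^ ((finrank ℝ V : ℝ) / 2) * μ.real L)
    (m : ℕ) (ν : ℝ) (hν : 0 < ν)
    (hm : ν * (((1 + κ) / (1 - κ)) ^ finrank ℝ V * 2 ^ finrank ℝ V) ≤ m * W)
    (G : ℝ) (hG : 4 * (1 / ζ + 1) ^ 2 * (VU / VL) ^ 2 * (4096 / ζ) ^ finrank ℝ V ≤ G)
    (hsum : G * (Real.exp (-ν) * (2 / (Real.exp 1 * ν)) ^ finrank ℝ V) < 1)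
    (k n : ℕ) (hk : G * r₀ ^ finrank ℝ V < k + 1)
    (hn : (TP.left (((1 - κ) / (1 + (1 - κ))) ^ finrank ℝ V))^[n] k = 0) :
    ∃ T : Finset V, A + B ⊆ ⋃ t ∈ T, (fun x => t + x) '' interior (A + B) ∧
      T.card ≤ m + n := by
  obtain ⟨c, hK, hKK⟩ := origin μ hA hAc (hLi.mono (interior_mono hLA)) VU hU
  set K : Set V := {v | c + v ∈ A} with hKdef
  set L' : Set V := {v | c + v ∈ L} with hLdef
  have hζ1 : ζ < 1 := by linarith
  have hκ0 : 0 < κ := by linarith
  obtain ⟨F, hFG, hF⟩ := LF.net hK hζ hζ1 _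
    (fun F hF => good_card μ hK hζ hζ1 VL VU hVL hVL' hU hKK F hF)
  have hinv := (inv_sum μ hK hζ hζ1 VL VU hVL hVL' hU hKK F hFG).trans hG
  have hvL : μ.real L' = μ.real L := by
    have e : L' = (fun v => c + v) ⁻¹' L := rfl
    rw [e, measureReal_def, measure_preimage_add]
    rfl
  have hKA : K - L' = A - L := by
    ext x
    constructor
    · rintro ⟨a, ha, b, hb, rfl⟩
      exact ⟨c + a, ha, c + b, hb, by simp⟩
    · rintro ⟨a, ha, b, hb, rfl⟩
      refine ⟨a - c, ?_, b - c, ?_, by simp⟩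
      · show c + (a - c) ∈ A
        rwa [add_sub_cancel]
      · show c + (b - c) ∈ L
        rwa [add_sub_cancel]
  have hL'c : IsCompact L' := by
    refine (hLc.image (f := fun y => y - c) (by fun_prop)).of_isClosed_subset
      (hLc.isClosed.preimage (by fun_prop)) ?_
    intro a ha
    exact ⟨c + a, ha, by simp⟩
  have hL'i : (interior L').Nonempty := by
    obtain ⟨z, hz⟩ := hLi
    have h1 : IsOpen ((fun v => c + v) ⁻¹' interior L) := isOpen_interior.preimage (by fun_prop)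
    refine ⟨z - c, interior_maximal (s := L') (t := (fun v => c + v) ⁻¹' interior L)
      (fun a ha => interior_subset (s := L) ha) h1 ?_⟩
    show c + (z - c) ∈ interior L
    rwa [add_sub_cancel]
  have hL'v : Convex ℝ L' := hL.translate_preimage_right c
  obtain ⟨Y, hYm, hY⟩ := few μ (L := L') hK hL'v hL'c hL'i
    (fun v hv => hLA hv) hd hκ0 hκ1 F (good_int hK hζ hζ1 hFG) _ hinv r₀ W hr₀ hW
    (by rw [hKA, hvL]; exact hthr) m ν hν hm hsum k n hk hn
  obtain ⟨T, hT, hcov⟩ := lit_cov hA hAc hB hBc hBn (by omega) c hK (by linarith : 0 < 1 - κ)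
    (by linarith : 1 - κ < 1 - 2 * ζ) F Y hF hY
  exact ⟨T, hcov, hT.trans hYm⟩

end Pool.Agent.H234.Cov
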