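import Pool.Agent.H234.Cov.Num

set_option autoImplicit false

/-!
The covering of `A + B`.
-/

namespace Pool.Agent.H234.Cov

open scoped RealInnerProductSpace Pointwise ENNReal
open Module MeasureTheory Real
open Pool.Agent.H845R2 (SB pol MV)
open Pool.Agent.K3h52 Pool.Agent.K3h52.HR Pool.Agent.K3h52.LF

/-- The covering, with a number `Λ`. -/
theorem main (d : ℕ) (hd : 3 ≤ d) (A B L : Set (EuclideanSpace ℝ (Fin d))) (hA : Convex ℝ A)
    (hAc : IsCompact A) (hB : Convex ℝ B) (hBc : IsCompact B) (hBn : B.Nonempty)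
    (hL : Convex ℝ L) (hLc : IsCompact L) (hLi : (interior L).Nonempty) (hLA : L ⊆ A)
    (Λ : ℝ) (hΛ1 : 1 ≤ Λ)
    (hΛ : volume.real (A - L) ≤ 2 ^ d * Λ * volume.real L) :
    ∃ T : Finset (EuclideanSpace ℝ (Fin d)),
      A + B ⊆ ⋃ t ∈ T, (fun x => t + x) '' interior (A + B) ∧
      (T.card : ℝ) ≤ 2 ^ d * d * (16 + 2 * log (1 + log Λ)) := by
  have hfr : finrank ℝ (EuclideanSpace ℝ (Fin d)) = d := by simp
  have hAi : (interior A).Nonempty := hLi.mono (interior_mono hLA)
  have hℓ : 0 ≤ log Λ := Real.log_nonneg hΛ1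
  rcases lt_or_ge (log (d : ℝ) + log (log d)) (20 + 4 * log (1 + log Λ)) with h20 | h20
  · obtain ⟨T, hT, hcard⟩ := HR.main d hd A B hA hAc hAi hB hBc hBn
    refine ⟨T, hT, hcard.trans ?_⟩
    have hd0 : (0 : ℝ) < d := by exact_mod_cast (by omega : 0 < d)
    rw [mul_assoc]
    refine mul_le_mul_of_nonneg_left ?_ (by positivity)
    nlinarith
  · obtain ⟨ζ, κ, r₀, W, hζ, hκ, hκ1, hr₀, hW, hthr, m, ν, hν, hm, G, hG, hsum, k, n, hk, hn,
      hle⟩ := final d hd (log Λ) hℓ h20
    rw [exp_log (by linarith)] at hthr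
    have hVL : (0 : ℝ) < 3.58 ^ d / (d.factorial : ℝ) := by
      have : (0 : ℝ) < d.factorial := by exact_mod_cast Nat.factorial_pos d
      positivity
    obtain ⟨T, hT, hcard⟩ := cov volume hA hAc hL hLc hLi hLA hB hBc hBn
      (by rw [hfr]; omega) (3.58 ^ d / (d.factorial : ℝ)) ((2 * π * exp 1 / d) ^ d) hVL (vp_lower d)
      (fun S hS => Pool.Agent.H845R2.santalo_bound (by omega) hS) hζ hκ hκ1 r₀ W hr₀ hW
      (by
        rw [hfr, hthr]
        calc W * volume.real (A - L) ≤ W * (2 ^ d * Λ * volume.real L) :=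
              mul_le_mul_of_nonneg_left hΛ hW.le
          _ = 2 ^ d * (W * Λ) * volume.real L := by ring)
      m ν hν (by rw [hfr]; exact hm) G (by rw [hfr]; exact hG) (by rw [hfr]; exact hsum) k n
      (by rw [hfr]; exact hk) (by rw [hfr]; exact hn)
    exact ⟨T, hT, le_trans (by exact_mod_cast hcard) hle⟩

/-- `vol (A - L) ≥ 2ᵈ vol L`. -/
theorem vol_sub_ge (d : ℕ) (A L : Set (EuclideanSpace ℝ (Fin d)))
    (hAc : IsCompact A) (hLc : IsCompact L) (hLA : L ⊆ A) :
    2 ^ d * volume.real L ≤ volume.real (A - L) := by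
  have hfr : finrank ℝ (EuclideanSpace ℝ (Fin d)) = d := by simp
  have hAL : IsCompact (A - L) := sub_comp hAc hLc
  have hneg : volume.real (-L) = volume.real L := by
    rw [measureReal_def, Measure.measure_neg]
    rfl
  have key := Pool.Agent.K3h76.UC.bm volume d hfr L (-L) (A - L) hLc.isClosed.measurableSet
    hLc.neg.isClosed.measurableSet hAL.isClosed.measurableSet hLc.measure_lt_top.ne
    hLc.neg.measure_lt_top.ne hAL.measure_lt_top.ne 1 1 one_pos one_pos
    (by rw [hneg, one_pow, one_mul]) (by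
      intro z hz w hw
      exact ⟨z, hLA hz, -w, hw, by simp⟩)
  rw [hneg] at key
  have : (1 + 1 : ℝ) = 2 := by norm_num
  rwa [this] at key

/-- The part of `A` symmetric about `c`. -/
def Symm {d : ℕ} (A : Set (EuclideanSpace ℝ (Fin d))) (c : EuclideanSpace ℝ (Fin d)) :
    Set (EuclideanSpace ℝ (Fin d)) := A ∩ {x | (2 : ℝ) • c - x ∈ A}

theorem symm_conv {d : ℕ} {A : Set (EuclideanSpace ℝ (Fin d))} (hA : Convex ℝ A)
    (c : EuclideanSpace ℝ (Fin d)) : Convex ℝ (Symm A c) := by
  refine hA.inter ?_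
  intro x hx y hy a b ha hb hab
  have := hA hx hy ha hb hab
  have e : (2 : ℝ) • c - (a • x + b • y) = a • ((2 : ℝ) • c - x) + b • ((2 : ℝ) • c - y) := by
    have e0 : (2 : ℝ) • c = a • ((2 : ℝ) • c) + b • ((2 : ℝ) • c) := by
      rw [← add_smul, hab, one_smul]
    nth_rewrite 1 [e0]
    rw [smul_sub, smul_sub]
    abel
  show (2 : ℝ) • c - (a • x + b • y) ∈ A
  rw [e]
  exact this

theorem symm_comp {d : ℕ} {A : Set (EuclideanSpace ℝ (Fin d))} (hAc : IsCompact A)
    (c : EuclideanSpace ℝ (Fin d)) : IsCompact (Symm A c) := by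
  have hRclosed : IsClosed {x : EuclideanSpace ℝ (Fin d) | (2 : ℝ) • c - x ∈ A} :=
    hAc.isClosed.preimage (f := fun x => (2 : ℝ) • c - x) (by fun_prop)
  exact hAc.inter_right hRclosed

/-- The covering, with the part symmetric about a point. -/
theorem main_symm (d : ℕ) (hd : 3 ≤ d) (A B : Set (EuclideanSpace ℝ (Fin d))) (hA : Convex ℝ A)
    (hAc : IsCompact A) (hB : Convex ℝ B) (hBc : IsCompact B) (hBn : B.Nonempty)
    (c : EuclideanSpace ℝ (Fin d)) (hS : 0 < volume.real (Symm A c)) (Λ : ℝ)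
    (hΛ : volume.real A ≤ Λ * volume.real (Symm A c)) :
    ∃ T : Finset (EuclideanSpace ℝ (Fin d)),
      A + B ⊆ ⋃ t ∈ T, (fun x => t + x) '' interior (A + B) ∧
      (T.card : ℝ) ≤ 2 ^ d * d * (16 + 2 * log (1 + log Λ)) := by
  have hfr : finrank ℝ (EuclideanSpace ℝ (Fin d)) = d := by simp
  have hSc := symm_comp hAc c
  have hSv := symm_conv hA c
  have hSi : (interior (Symm A c)).Nonempty := int_of_pos volume hSv hSc hS
  have hSA : Symm A c ⊆ A := Set.inter_subset_left
  have hle1 : volume.real (Symm A c) ≤ volume.real A :=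
    measureReal_mono hSA hAc.measure_lt_top.ne
  have hΛ1 : 1 ≤ Λ := by
    by_contra hcon
    push Not at hcon
    nlinarith
  refine main d hd A B (Symm A c) hA hAc hB hBc hBn hSv hSc hSi hSA Λ hΛ1 ?_
  have hsub : A - Symm A c ⊆ (fun x => (2 : ℝ) • c + x) ⁻¹' ((2 : ℝ) • A) := by
    rintro _ ⟨a, ha, l, hl, rfl⟩
    have h1 : (1 / 2 : ℝ) • a + (1 / 2 : ℝ) • ((2 : ℝ) • c - l) ∈ A :=
      hA ha hl.2 (by norm_num) (by norm_num) (by norm_num)
    refine ⟨_, h1, ?_⟩
    simp only [smul_add, smul_smul, smul_sub]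
    module
  have h2A : IsCompact ((2 : ℝ) • A) := hAc.smul 2
  calc volume.real (A - Symm A c)
      ≤ volume.real ((fun x => (2 : ℝ) • c + x) ⁻¹' ((2 : ℝ) • A)) := by
        refine measureReal_mono hsub ?_
        rw [measure_preimage_add]
        exact h2A.measure_lt_top.ne
    _ = volume.real ((2 : ℝ) • A) := by
        rw [measureReal_def, measure_preimage_add]
        rfl
    _ = 2 ^ d * volume.real A := by
        rw [vol_smul volume (by norm_num), hfr]
    _ ≤ 2 ^ d * (Λ * volume.real (Symm A c)) := mul_le_mul_of_nonneg_left hΛ (by positivity)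
    _ = 2 ^ d * Λ * volume.real (Symm A c) := by ring

/-- The covering of almost symmetric bodies. -/
theorem main_asym (d : ℕ) (hd : 3 ≤ d) (A B : Set (EuclideanSpace ℝ (Fin d))) (hA : Convex ℝ A)
    (hAc : IsCompact A) (hAi : (interior A).Nonempty) (hB : Convex ℝ B) (hBc : IsCompact B)
    (hBn : B.Nonempty) (c : EuclideanSpace ℝ (Fin d)) (η : ℝ) (hη : 0 ≤ η)
    (h : ∀ x ∈ A, c - (1 / (1 + η)) • (x - c) ∈ A) :
    ∃ T : Finset (EuclideanSpace ℝ (Fin d)),
      A + B ⊆ ⋃ t ∈ T, (fun x => t + x) '' interior (A + B) ∧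
      (T.card : ℝ) ≤ 2 ^ d * d * (16 + 2 * log (1 + d * η)) := by
  have hfr : finrank ℝ (EuclideanSpace ℝ (Fin d)) = d := by simp
  have hη1 : 0 < 1 + η := by linarith
  have hη2 : 0 < 2 + η := by linarith
  have hA0 : 0 < volume.real A := TP.real_pos' volume hAc hAi
  -- the point `c` is in `A`
  have hc : c ∈ A := by
    obtain ⟨x, hx⟩ := hAi
    have hx := interior_subset hx
    have h1 := hA (h x hx) hx (a := (1 + η) / (2 + η)) (b := 1 / (2 + η)) (by positivity)
      (by positivity) (by field_simp; ring)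
    have e : ((1 + η) / (2 + η)) • (c - (1 / (1 + η)) • (x - c)) + (1 / (2 + η)) • x = c := by
      rw [smul_sub, smul_smul]
      have e1 : (1 + η) / (2 + η) * (1 / (1 + η)) = 1 / (2 + η) := by field_simp
      rw [e1, smul_sub]
      have e2 : ((1 + η) / (2 + η)) • c - ((1 / (2 + η)) • x - (1 / (2 + η)) • c) +
          (1 / (2 + η)) • x = ((1 + η) / (2 + η) + 1 / (2 + η)) • c := by
        rw [add_smul]; abel
      rw [e2]
      have e3 : (1 + η) / (2 + η) + 1 / (2 + η) = 1 := by field_simp; ring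
      rw [e3, one_smul]
    rwa [e] at h1
  -- a homothetic copy of `A` in the symmetric part
  have hsub : (fun x => (η / (1 + η)) • c + x) '' ((1 / (1 + η)) • A) ⊆ Symm A c := by
    rintro _ ⟨_, ⟨x, hx, rfl⟩, rfl⟩
    constructor
    · exact hA hc hx (by positivity) (by positivity) (by field_simp; ring)
    · have h1 := h x hx
      have e : (2 : ℝ) • c - ((η / (1 + η)) • c + (1 / (1 + η)) • x) =
          c - (1 / (1 + η)) • (x - c) := by
        have e1 : (η / (1 + η)) • c = c - (1 / (1 + η)) • c := by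
          have : η / (1 + η) = 1 - 1 / (1 + η) := by field_simp; ring
          rw [this, sub_smul, one_smul]
        rw [e1, two_smul, smul_sub]
        abel
      show (2 : ℝ) • c - ((η / (1 + η)) • c + (1 / (1 + η)) • x) ∈ A
      rw [e]
      exact h1
  have hvol : (1 / (1 + η)) ^ d * volume.real A ≤ volume.real (Symm A c) := by
    have h1 : volume.real ((fun x => (η / (1 + η)) • c + x) '' ((1 / (1 + η)) • A)) =
        (1 / (1 + η)) ^ d * volume.real A := by
      have e : volume.real ((fun x => (η / (1 + η)) • c + x) '' ((1 / (1 + η)) • A)) =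
          volume.real ((1 / (1 + η)) • A) := by
        rw [Set.image_add_left, measureReal_def, measure_preimage_add]
        rfl
      rw [e, vol_smul volume (by positivity), hfr]
    rw [← h1]
    exact measureReal_mono hsub (symm_comp hAc c).measure_lt_top.ne
  have hS : 0 < volume.real (Symm A c) := lt_of_lt_of_le (by positivity) hvol
  obtain ⟨T, hT, hcard⟩ := main_symm d hd A B hA hAc hB hBc hBn c hS ((1 + η) ^ d) (by
    calc volume.real A = (1 + η) ^ d * ((1 / (1 + η)) ^ d * volume.real A) := by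
          rw [← mul_assoc, ← mul_pow]
          have : (1 + η) * (1 / (1 + η)) = 1 := by field_simp
          rw [this, one_pow, one_mul]
      _ ≤ (1 + η) ^ d * volume.real (Symm A c) :=
          mul_le_mul_of_nonneg_left hvol (by positivity))
  refine ⟨T, hT, hcard.trans ?_⟩
  have h1 : log ((1 + η) ^ d) ≤ d * η := by
    rw [log_pow]
    have := Real.log_le_sub_one_of_pos hη1
    exact mul_le_mul_of_nonneg_left (by linarith) (by positivity)
  have h0 : 0 ≤ log ((1 + η) ^ d) := Real.log_nonneg (one_le_pow₀ (by linarith))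
  have h2 : log (1 + log ((1 + η) ^ d)) ≤ log (1 + d * η) :=
    Real.log_le_log (by linarith) (by linarith)
  refine mul_le_mul_of_nonneg_left ?_ (by positivity)
  linarith

end Pool.Agent.H234.Cov
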