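import Pool.Agent.H234.Cov.Few

set_option autoImplicit false
set_option exponentiation.threshold 2000

/-!
Constants.
-/

namespace Pool.Agent.H234.Cov

open Real
open Pool.Agent.K3h52 Pool.Agent.K3h52.HR
open Pool.Agent.K3h52.TP (left exists_steps)

/-- The final estimate. -/
theorem final (d : ℕ) (hd : 3 ≤ d) (ℓ : ℝ) (hℓ : 0 ≤ ℓ)
    (h20 : 20 + 4 * log (1 + ℓ) ≤ log d + log (log d)) :
    ∃ ζ κ r₀ W : ℝ, 0 < ζ ∧ 2 * ζ < κ ∧ κ < 1 ∧ 0 < r₀ ∧ 0 < W ∧
      (1 + r₀) ^ ((d : ℝ) / 2) = W * exp ℓ ∧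
      ∃ (m : ℕ) (ν : ℝ), 0 < ν ∧
      ν * (((1 + κ) / (1 - κ)) ^ d * 2 ^ d) ≤ m * W ∧ ∃ G : ℝ,
      4 * (1 / ζ + 1) ^ 2 * ((2 * π * exp 1 / d) ^ d / (3.58 ^ d / (d.factorial : ℝ))) ^ 2 *
        (4096 / ζ) ^ d ≤ G ∧
      G * (exp (-ν) * (2 / (exp 1 * ν)) ^ d) < 1 ∧ ∃ k n : ℕ,
      G * r₀ ^ d < k + 1 ∧
      (left (((1 - κ) / (1 + (1 - κ))) ^ d))^[n] k = 0 ∧
      ((m + n : ℕ) : ℝ) ≤ 2 ^ d * d * (16 + 2 * log (1 + ℓ)) := by
  have hd3 : (3 : ℝ) ≤ d := by exact_mod_cast hd
  have hd0 : (0 : ℝ) < d := by linarith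
  set t := log (1 + ℓ) with ht
  have ht0 : 0 ≤ t := Real.log_nonneg (by linarith)
  set l := log (d : ℝ) with hl
  have hl0' : 0 < l := Real.log_pos (by linarith)
  have hl1 : 17.1 ≤ l := by
    by_contra hcon
    push Not at hcon
    have h1 : log l ≤ log 17.1 := Real.log_le_log hl0' hcon.le
    have h2 := log_le 17.1 (by norm_num) 71 25 (by norm_num) (by norm_num)
    have : ((71 : ℕ) : ℝ) / (25 : ℕ) ≤ 2.84 := by norm_num
    linarith
  have hE7 : log 10000000 ≤ 17 := by
    have h1 := log_le 10000000 (by norm_num) 17 1 (by norm_num) (by norm_num)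
    have : ((17 : ℕ) : ℝ) / (1 : ℕ) = 17 := by norm_num
    linarith
  have hd1 : (10000000 : ℝ) ≤ d := by
    have h2 : log 10000000 ≤ l := by linarith
    exact (Real.log_le_log_iff (by norm_num) hd0).1 h2
  have hl2 : l ≤ 0.000002 * d := by
    have h1 := Real.log_le_sub_one_of_pos (show 0 < (d : ℝ) / 10000000 by positivity)
    rw [Real.log_div hd0.ne' (by norm_num)] at h1
    linarith
  -- `ℓ` is small
  have hℓd : 3162 * (1 + ℓ) ≤ d := by
    have h1 : log l ≤ l - 1 := Real.log_le_sub_one_of_pos hl0'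
    have h2 : t ≤ l / 2 := by linarith
    have h3 : 1 + ℓ ≤ exp (l / 2) := by
      rw [← Real.log_le_iff_le_exp (by linarith)]
      exact h2
    have h4 : exp (l / 2) * exp (l / 2) = d := by
      rw [← exp_add, add_halves, hl, exp_log hd0]
    have h5 : 3162 ≤ exp (l / 2) := by
      by_contra hcon
      push Not at hcon
      have h6 : exp (l / 2) * exp (l / 2) ≤ 3162 * 3162 :=
        mul_le_mul hcon.le hcon.le (exp_pos _).le (by norm_num)
      rw [h4] at h6
      linarith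
    calc 3162 * (1 + ℓ) ≤ exp (l / 2) * exp (l / 2) :=
          mul_le_mul h5 h3 (by linarith) (exp_pos _).le
      _ = d := h4
  set ζ := 1 / (40 * (d : ℝ)) with hζ
  have hζ0 : 0 < ζ := by positivity
  set κ := 0.0505 / (d : ℝ) with hκ
  have hκ0 : 0 < κ := by positivity
  have hκ1 : κ ≤ 0.00001 := by
    rw [hκ, div_le_iff₀ hd0]
    linarith
  set ν := 11 * (d : ℝ) with hν
  have hν0 : 0 < ν := by positivity
  have hz : 1 / ζ = 40 * d := by rw [hζ, one_div_one_div]
  set x := 2 * (ℓ + 4) / (d : ℝ) with hx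
  have hx0 : 0 < x := by positivity
  have hx1 : x ≤ 0.0007 := by
    rw [hx, div_le_iff₀ hd0]
    linarith
  set r₀ := exp x - 1 with hr₀
  have hr₀0 : 0 < r₀ := by
    have := Real.add_one_lt_exp hx0.ne'
    rw [hr₀]
    linarith
  have hr₀1 : r₀ * d ≤ 2.0016 * (ℓ + 4) := by
    have h1 : exp x ≤ 1 / (1 - x) :=
      Real.exp_bound_div_one_sub_of_interval hx0.le (by linarith)
    have h2 : r₀ ≤ 1.0008 * x := by
      have h3 : 1 / (1 - x) ≤ 1 + 1.0008 * x := by
        rw [div_le_iff₀ (by linarith)]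
        nlinarith
      rw [hr₀]
      linarith
    have h4 : x * d = 2 * (ℓ + 4) := by
      rw [hx]
      field_simp
    calc r₀ * d ≤ 1.0008 * x * d := mul_le_mul_of_nonneg_right h2 hd0.le
      _ = 1.0008 * (x * d) := by ring
      _ = 2.0016 * (ℓ + 4) := by rw [h4]; ring
  -- the polynomial factor
  set P := 4 * (40 * (d : ℝ) + 1) ^ 2 * (exp 1 * d) ^ 2 with hP
  have hP0 : 0 ≤ P := by positivity
  have hP1 : P ≤ exp (0.00002 * d) := by
    have he := Real.exp_one_lt_d9
    have h4 : 4 * (40 * (d : ℝ) + 1) ^ 2 * (exp 1 * d) ^ 2 ≤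
        4 * (40.001 * d) ^ 2 * (2.7182818286 * d) ^ 2 := by
      gcongr
      linarith
    have h5 : (47300 : ℝ) ≤ exp 10.767 := by
      have h7 := log_le 47300 (by norm_num) 323 30 (by norm_num) (by norm_num)
      have : ((323 : ℕ) : ℝ) / (30 : ℕ) ≤ 10.767 := by norm_num
      rw [← Real.log_le_iff_le_exp (by norm_num)]
      linarith
    have h6 : exp (4 * l) = (d : ℝ) ^ 4 := by
      have : (4 : ℝ) * l = ((4 : ℕ) : ℝ) * l := by norm_num
      rw [this, Real.exp_nat_mul, hl, exp_log hd0]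
    calc P ≤ 4 * (40.001 * d) ^ 2 * (2.7182818286 * d) ^ 2 := h4
      _ = (4 * 40.001 ^ 2 * 2.7182818286 ^ 2) * (d : ℝ) ^ 4 := by ring
      _ ≤ 47300 * (d : ℝ) ^ 4 := by
          refine mul_le_mul_of_nonneg_right ?_ (by positivity)
          norm_num
      _ ≤ exp 10.767 * exp (4 * l) := by
          rw [h6]
          exact mul_le_mul_of_nonneg_right h5 (by positivity)
      _ = exp (10.767 + 4 * l) := by rw [exp_add]
      _ ≤ exp (0.00002 * d) := by
          refine Real.exp_le_exp.mpr ?_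
          linarith
  set G := P * (1.7551 ^ 2 * 163840 * (d : ℝ)) ^ d with hG
  have hG0 : 0 ≤ G := by positivity
  have hR := ratio d (by omega)
  have hR0 : 0 ≤ (2 * π * exp 1 / d) ^ d / (3.58 ^ d / (d.factorial : ℝ)) := by positivity
  have hGle : 4 * (1 / ζ + 1) ^ 2 *
      ((2 * π * exp 1 / d) ^ d / (3.58 ^ d / (d.factorial : ℝ))) ^ 2 * (4096 / ζ) ^ d ≤ G := by
    calc 4 * (1 / ζ + 1) ^ 2 *
          ((2 * π * exp 1 / d) ^ d / (3.58 ^ d / (d.factorial : ℝ))) ^ 2 * (4096 / ζ) ^ d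
        ≤ 4 * (1 / ζ + 1) ^ 2 * (exp 1 * d * 1.7551 ^ d) ^ 2 * (4096 / ζ) ^ d := by gcongr
      _ = G := by
          have e2 : (4096 / ζ) ^ d = (163840 * d) ^ d := by
            congr 1
            rw [hζ]
            field_simp
            norm_num
          have e4 : (1.7551 ^ 2 * 163840 * (d : ℝ)) ^ d =
              (1.7551 ^ d) ^ 2 * (163840 * d) ^ d := by
            rw [← pow_mul, mul_comm d 2, pow_mul, ← mul_pow]
            congr 1
            ring
          rw [hG, hP, hz, e2, e4]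
          ring
  -- the random part
  have hsum : G * (exp (-ν) * (2 / (exp 1 * ν)) ^ d) < 1 := by
    have e1 : G * (exp (-ν) * (2 / (exp 1 * ν)) ^ d) =
        P * (1.7551 ^ 2 * 163840 * 2 / 11 * exp (-12)) ^ d := by
      have e1 : exp (-ν) = exp (-11) ^ d := by
        rw [← Real.exp_nat_mul, hν]
        congr 1
        ring
      have e3 : exp (-12) = exp (-11) / exp 1 := by
        rw [← Real.exp_sub]
        norm_num
      have e4 : (1.7551 ^ 2 * 163840 * 2 / 11 * exp (-12)) ^ d =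
          (1.7551 ^ 2 * 163840 * (d : ℝ)) ^ d * (exp (-11) ^ d * (2 / (exp 1 * ν)) ^ d) := by
        rw [← mul_pow, ← mul_pow]
        congr 1
        rw [e3, hν]
        field_simp
      rw [hG, e4, e1]
      ring
    have h8 : 1.7551 ^ 2 * 163840 * 2 / 11 * exp (-12) ≤ exp (-0.57) := by
      have h9 : (91770 : ℝ) ≤ exp 11.43 := by
        have h7 := log_le 91770 (by norm_num) 80 7 (by norm_num) (by norm_num)
        have : ((80 : ℕ) : ℝ) / (7 : ℕ) ≤ 11.43 := by norm_num
        rw [← Real.log_le_iff_le_exp (by norm_num)]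
        linarith
      calc 1.7551 ^ 2 * 163840 * 2 / 11 * exp (-12) ≤ 91770 * exp (-12) := by
            refine mul_le_mul_of_nonneg_right ?_ (exp_pos _).le
            norm_num
        _ ≤ exp 11.43 * exp (-12) := mul_le_mul_of_nonneg_right h9 (exp_pos _).le
        _ = exp (-0.57) := by
            rw [← exp_add]
            norm_num
    rw [e1]
    calc P * (1.7551 ^ 2 * 163840 * 2 / 11 * exp (-12)) ^ d
        ≤ exp (0.00002 * d) * exp (-0.57) ^ d :=
          mul_le_mul hP1 (pow_le_pow_left₀ (by positivity) h8 d) (by positivity) (exp_pos _).le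
      _ = exp (-(0.56998 * d)) := by
          rw [← Real.exp_nat_mul, ← exp_add]
          congr 1
          ring
      _ < 1 := by
          rw [Real.exp_lt_one_iff]
          have : 0 < 0.56998 * (d : ℝ) := by positivity
          linarith
  set W := exp 4 with hW
  have hW0 : 0 < W := exp_pos 4
  have hWge : 54.5 ≤ W := by
    rw [hW]
    have h1 := Real.exp_one_gt_d9
    have : exp (4 : ℝ) = exp 1 ^ 4 := by
      rw [← Real.exp_nat_mul]
      norm_num
    rw [this]
    calc (54.5 : ℝ) ≤ 2.7182818283 ^ 4 := by norm_num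
      _ ≤ exp 1 ^ 4 := pow_le_pow_left₀ (by norm_num) h1.le 4
  set X := ν * (((1 + κ) / (1 - κ)) ^ d * 2 ^ d) / W with hX
  have hq0 : 0 ≤ (1 + κ) / (1 - κ) := div_nonneg (by linarith) (by linarith)
  have hX0 : 0 ≤ X := by positivity
  -- the greedy part
  set ρ := 1 - κ with hρ
  have hρ0 : 0 < ρ := by linarith
  set p := (ρ / (1 + ρ)) ^ d with hp
  have hp0 : 0 < p := by positivity
  have hp2 : p ≤ (1 / 2) ^ d := by
    refine pow_le_pow_left₀ (by positivity) ?_ d
    rw [div_le_iff₀ (by positivity)]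
    linarith
  have hp1 : p ≤ 1 := hp2.trans (pow_le_one₀ (by norm_num) (by norm_num))
  set N₀ := G * r₀ ^ d with hN₀
  have hN0 : 0 ≤ N₀ := by positivity
  set Λ := (d : ℝ) * (14.55 + t) with hΛ
  have hΛ0 : 0 ≤ Λ := by positivity
  have hpN : p * N₀ ≤ exp Λ := by
    have e1 : (1 / 2 : ℝ) ^ d * N₀ = P * (1.7551 ^ 2 * 81920 * (r₀ * d)) ^ d := by
      have : (1.7551 ^ 2 * 81920 * (r₀ * (d : ℝ))) ^ d =
          (1 / 2 : ℝ) ^ d * (1.7551 ^ 2 * 163840 * (d : ℝ)) ^ d * r₀ ^ d := by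
        rw [← mul_pow, ← mul_pow]
        congr 1
        ring
      rw [this, hN₀, hG]
      ring
    have e2 : 1.7551 ^ 2 * 81920 * (r₀ * (d : ℝ)) ≤ exp (14.5429 + t) := by
      have h1 : 1.7551 ^ 2 * 81920 * (r₀ * (d : ℝ)) ≤ 505200 * (4 * (1 + ℓ)) := by
        calc 1.7551 ^ 2 * 81920 * (r₀ * (d : ℝ)) ≤ 1.7551 ^ 2 * 81920 * (2.0016 * (ℓ + 4)) :=
              mul_le_mul_of_nonneg_left hr₀1 (by norm_num)
          _ = (1.7551 ^ 2 * 81920 * 2.0016) * (ℓ + 4) := by ring
          _ ≤ 505200 * (ℓ + 4) := by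
              refine mul_le_mul_of_nonneg_right ?_ (by linarith)
              norm_num
          _ ≤ 505200 * (4 * (1 + ℓ)) := by linarith
      have h2 : (505200 : ℝ) ≤ exp 13.1429 := by
        have h7 := log_le 505200 (by norm_num) 92 7 (by norm_num) (by norm_num)
        have : ((92 : ℕ) : ℝ) / (7 : ℕ) ≤ 13.1429 := by norm_num
        rw [← Real.log_le_iff_le_exp (by norm_num)]
        linarith
      have h3 : (4 : ℝ) ≤ exp 1.4 := by
        have h7 := log_le 4 (by norm_num) 7 5 (by norm_num) (by norm_num)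
        have : ((7 : ℕ) : ℝ) / (5 : ℕ) ≤ 1.4 := by norm_num
        rw [← Real.log_le_iff_le_exp (by norm_num)]
        linarith
      have h4 : exp t = 1 + ℓ := by rw [ht, exp_log (by linarith)]
      calc 1.7551 ^ 2 * 81920 * (r₀ * (d : ℝ)) ≤ 505200 * (4 * (1 + ℓ)) := h1
        _ ≤ exp 13.1429 * (exp 1.4 * (1 + ℓ)) :=
            mul_le_mul h2 (mul_le_mul_of_nonneg_right h3 (by linarith)) (by positivity)
              (exp_pos _).le
        _ = exp (14.5429 + t) := by
            rw [← h4, ← exp_add, ← exp_add]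
            congr 1
            ring
    calc p * N₀ ≤ (1 / 2) ^ d * N₀ := mul_le_mul_of_nonneg_right hp2 hN0
      _ = P * (1.7551 ^ 2 * 81920 * (r₀ * d)) ^ d := e1
      _ ≤ exp (0.00002 * d) * exp (14.5429 + t) ^ d :=
          mul_le_mul hP1 (pow_le_pow_left₀ (by positivity) e2 d) (by positivity) (exp_pos _).le
      _ = exp (d * (14.5429 + t) + 0.00002 * d) := by
          rw [← Real.exp_nat_mul, ← exp_add]
          congr 1
          ring
      _ ≤ exp Λ := by
          refine Real.exp_le_exp.mpr ?_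
          rw [hΛ]
          nlinarith
  have hpk : p * (⌊N₀⌋₊ : ℝ) ≤ exp Λ :=
    (mul_le_mul_of_nonneg_left (Nat.floor_le hN0) hp0.le).trans hpN
  obtain ⟨n, hn, hnle⟩ := exists_steps hp0 hp1 ⌊N₀⌋₊ Λ hΛ0 hpk
  refine ⟨ζ, κ, r₀, W, hζ0, ?_, by linarith, hr₀0, hW0, ?_, ⌈X⌉₊, ν, hν0, ?_, G, hGle, hsum,
    ⌊N₀⌋₊, n, Nat.lt_floor_add_one _, hn, ?_⟩
  · rw [hζ, hκ]
    rw [mul_one_div, div_lt_div_iff₀ (by positivity) hd0]
    linarith
  · have h1 : 1 + r₀ = exp x := by rw [hr₀]; ring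
    rw [h1, ← Real.exp_mul, hW, ← exp_add]
    congr 1
    rw [hx]
    field_simp
    ring
  · have h1 : X ≤ ⌈X⌉₊ := Nat.le_ceil X
    calc ν * (((1 + κ) / (1 - κ)) ^ d * 2 ^ d) = X * W := by
          rw [hX, div_mul_cancel₀ _ hW0.ne']
      _ ≤ ⌈X⌉₊ * W := mul_le_mul_of_nonneg_right h1 hW0.le
  -- the number of translates
  have h2d0 : (0 : ℝ) < 2 ^ d := by positivity
  have h2d1 : (1 : ℝ) ≤ 2 ^ d := one_le_pow₀ (by norm_num)
  have hm : (⌈X⌉₊ : ℝ) ≤ 1 + 0.2246 * d * 2 ^ d := by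
    have h1 : (⌈X⌉₊ : ℝ) < X + 1 := Nat.ceil_lt_add_one hX0
    have h2 : ((1 + κ) / (1 - κ)) ^ d ≤ 1 / (1 - 0.1011) := by
      have h3 : (1 + κ) / (1 - κ) ≤ exp (2 * κ / (1 - κ)) := by
        have h4 := Real.add_one_le_exp (2 * κ / (1 - κ))
        have h5 : 1 - κ ≠ 0 := by linarith
        have e : 2 * κ / (1 - κ) + 1 = (1 + κ) / (1 - κ) := by field_simp; ring
        rwa [e] at h4
      have h6 : ((1 + κ) / (1 - κ)) ^ d ≤ exp 0.1011 := by
        calc ((1 + κ) / (1 - κ)) ^ d ≤ exp (2 * κ / (1 - κ)) ^ d :=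
              pow_le_pow_left₀ hq0 h3 d
          _ = exp (d * (2 * κ / (1 - κ))) := by rw [← Real.exp_nat_mul]
          _ ≤ exp 0.1011 := by
              refine Real.exp_le_exp.mpr ?_
              have e : (d : ℝ) * (2 * κ / (1 - κ)) = 0.101 / (1 - κ) := by
                have h5 : 1 - κ ≠ 0 := by linarith
                have h7 : (d : ℝ) * (2 * κ) = 0.101 := by
                  rw [hκ]
                  field_simp
                  norm_num
                rw [← h7]
                ring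
              rw [e, div_le_iff₀ (by linarith)]
              linarith
      exact h6.trans (Real.exp_bound_div_one_sub_of_interval (by norm_num) (by norm_num))
    have h3 : X ≤ 0.2246 * d * 2 ^ d := by
      rw [hX, div_le_iff₀ hW0, hν]
      calc 11 * (d : ℝ) * (((1 + κ) / (1 - κ)) ^ d * 2 ^ d)
          ≤ 11 * (d : ℝ) * (1 / (1 - 0.1011) * 2 ^ d) := by gcongr
        _ = (11 * (1 / (1 - 0.1011))) * (d * 2 ^ d) := by ring
        _ ≤ (0.2246 * 54.5) * (d * 2 ^ d) := by
            refine mul_le_mul_of_nonneg_right ?_ (by positivity)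
            norm_num
        _ ≤ (0.2246 * W) * (d * 2 ^ d) := by
            refine mul_le_mul_of_nonneg_right ?_ (by positivity)
            linarith
        _ = 0.2246 * d * 2 ^ d * W := by ring
    linarith
  have hn' : (n : ℝ) ≤ 1 + 1.0263 * 2 ^ d * (1 + Λ) := by
    have hpinv : 1 / p ≤ 1.0263 * 2 ^ d := by
      have h1 : 1 / p = 2 ^ d * (1 + (1 - ρ) / (2 * ρ)) ^ d := by
        rw [hp, ← mul_pow, ← one_div_pow]
        congr 1
        field_simp
        ring
      have h2 : (1 + (1 - ρ) / (2 * ρ)) ^ d ≤ exp 0.02526 := by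
        have h10 : 0 ≤ (1 - ρ) / (2 * ρ) := div_nonneg (by linarith) (by linarith)
        calc (1 + (1 - ρ) / (2 * ρ)) ^ d ≤ exp ((1 - ρ) / (2 * ρ)) ^ d := by
              refine pow_le_pow_left₀ (by positivity) ?_ d
              have := Real.add_one_le_exp ((1 - ρ) / (2 * ρ))
              linarith
          _ = exp (d * ((1 - ρ) / (2 * ρ))) := by rw [← Real.exp_nat_mul]
          _ ≤ exp 0.02526 := by
              refine Real.exp_le_exp.mpr ?_
              have e1 : (1 - ρ) = κ := by rw [hρ]; ring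
              have e2 : (d : ℝ) * ((1 - ρ) / (2 * ρ)) = 0.02525 / ρ := by
                rw [e1, hκ]
                field_simp
                norm_num
              rw [e2, div_le_iff₀ hρ0]
              have h11 : 0.99999 ≤ ρ := by rw [hρ]; linarith
              nlinarith
      have h3 : exp 0.02526 ≤ 1 / (1 - 0.02526) :=
        Real.exp_bound_div_one_sub_of_interval (by norm_num) (by norm_num)
      have h4 : (1 : ℝ) / (1 - 0.02526) ≤ 1.0263 := by norm_num
      rw [h1, mul_comm]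
      exact mul_le_mul_of_nonneg_right (h2.trans (h3.trans h4)) h2d0.le
    have e : (1 + Λ) / p = 1 / p * (1 + Λ) := by ring
    rw [e] at hnle
    have := mul_le_mul_of_nonneg_right hpinv (show 0 ≤ 1 + Λ by linarith)
    linarith
  push_cast
  have h1 : 1.0263 * 2 ^ d * (1 + Λ) = 2 ^ d * (1.0263 + d * (14.932665 + 1.0263 * t)) := by
    rw [hΛ]
    ring
  have h2 : (0.2246 : ℝ) * d * 2 ^ d = 2 ^ d * (d * 0.2246) := by ring
  have h3 : (2 : ℝ) ≤ 2 ^ d * 2 := by linarith
  have h4 : (⌈X⌉₊ : ℝ) + n ≤ 2 ^ d * (3.0263 + d * (15.157265 + 1.0263 * t)) := by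
    have : (2 : ℝ) ^ d * (3.0263 + d * (15.157265 + 1.0263 * t)) =
        2 ^ d * 2 + 2 ^ d * (1.0263 + d * (14.932665 + 1.0263 * t)) + 2 ^ d * (d * 0.2246) := by
      ring
    rw [this]
    linarith
  refine h4.trans ?_
  rw [mul_assoc]
  refine mul_le_mul_of_nonneg_left ?_ h2d0.le
  have h5 : 0 ≤ (d : ℝ) * t := by positivity
  nlinarith

end Pool.Agent.H234.Cov
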